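import Pool.Agent.Helper2_CN3.Stmts
import Pool.Agent.Helper2_CN2.IChg
import Pool.Agent.Helper2_CN2.IBas
import Pool.Agent.Helper58_CON.ACov

/-!
Squad CN3, module Q_DET: the Gram matrices of the 13 lattices have different determinants
(in each rank)
-/

set_option autoImplicit false

noncomputable section

namespace Pool.Agent.CN3.H51

open Pool.Agent.H25Cong Pool.Agent.CON Pool.Agent.CN2 Pool.Agent.CN3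

/-- the matrix of a list of rows -/
def mx (m : ℕ) (G : List (List ℤ)) : Matrix (Fin m) (Fin m) ℤ :=
  Matrix.of fun i j => ent G i j

/-- the upper unipotent matrix which adds the second row to the first -/
def tOne (m : ℕ) : List (List ℤ) :=
  mat m fun i j => if i = j then 1 else if i = 0 ∧ j = 1 then 1 else 0

/-- certificate for the determinant: A lower triangular, A T Gᵗ upper triangular -/
def dcert (m : ℕ) (G A : List (List ℤ)) (d : ℤ) : Bool :=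
  decide (G.length = m) && decide (A.length = m) &&
  G.all (fun r => decide (r.length ≤ m)) && A.all (fun r => decide (r.length ≤ m)) &&
  ((List.range m).all fun i => (List.range m).all fun j =>
    (decide (j ≤ i) || decide (ent A i j = 0)) &&
    (decide (i ≤ j) || decide (ent (mulT A (mulT G (tOne m))) i j = 0))) &&
  decide (((List.range m).map fun i => ent A i i).prod * d =
    ((List.range m).map fun i => ent (mulT A (mulT G (tOne m))) i i).prod) &&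
  decide (((List.range m).map fun i => ent A i i).prod ≠ 0)

lemma mx_mulT (m : ℕ) (A B : List (List ℤ)) (hA : A.length = m) (hB : B.length = m)
    (h : ∀ u ∈ A, u.length ≤ m) : mx m (mulT A B) = mx m A * (mx m B).transpose := by
  ext i j
  rw [Matrix.mul_apply]
  simp only [mx, Matrix.of_apply, Matrix.transpose_apply]
  rw [Pool.Agent.CN2.H2.ic_mulT A B (m := m) (by omega) (by omega) h, Finset.sum_range]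

lemma prod_range (m : ℕ) (f : ℕ → ℤ) : ((List.range m).map f).prod = ∏ i : Fin m, f i := by
  rw [Fin.prod_univ_eq_prod_range f m]
  induction m with
  | zero => simp
  | succ k ih => rw [List.range_succ, List.map_append, List.prod_append, ih,
      Finset.prod_range_succ]; simp

theorem dcert_det (m : ℕ) (G A : List (List ℤ)) (d : ℤ) (h : dcert m G A d = true) :
    (mx m G).det = d := by
  simp only [dcert, Bool.and_eq_true, decide_eq_true_eq, List.all_eq_true, List.mem_range,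
    Bool.or_eq_true] at h
  obtain ⟨⟨⟨⟨⟨⟨hG, hA⟩, hGr⟩, hAr⟩, htri⟩, hprod⟩, hne⟩ := h
  have hT : (tOne m).length = m := by simp [tOne, mat]
  have hGT : (mulT G (tOne m)).length = m := by simp [mulT, hG]
  have e1 : mx m (mulT A (mulT G (tOne m))) =
      mx m A * (mx m (tOne m) * (mx m G).transpose) := by
    rw [mx_mulT m _ _ hA hGT hAr, mx_mulT m _ _ hG hT hGr, Matrix.transpose_mul,
      Matrix.transpose_transpose]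
  have hAt : (mx m A).det = ∏ i : Fin m, ent A i i := by
    rw [Matrix.det_of_lowerTriangular]
    · rfl
    · intro i j hij
      have hij' : (i : ℕ) < j := hij
      rcases (htri i i.2 j j.2).1 with h | h
      · omega
      · exact h
  have hTt : (mx m (tOne m)).det = 1 := by
    rw [Matrix.det_of_upperTriangular]
    · apply Finset.prod_eq_one
      intro i _
      simp only [mx, Matrix.of_apply, tOne]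
      rw [Pool.Agent.CN2.H2.ic_mat m _ i.2 i.2]
      simp
    · intro i j hij
      have hij' : (j : ℕ) < i := hij
      simp only [mx, Matrix.of_apply, tOne]
      rw [Pool.Agent.CN2.H2.ic_mat m _ i.2 j.2, if_neg (by omega), if_neg (by omega)]
  have hUt : (mx m (mulT A (mulT G (tOne m)))).det =
      ∏ i : Fin m, ent (mulT A (mulT G (tOne m))) i i := by
    rw [Matrix.det_of_upperTriangular]
    · rfl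
    · intro i j hij
      have hij' : (j : ℕ) < i := hij
      rcases (htri i i.2 j j.2).2 with h | h
      · omega
      · exact h
  rw [prod_range, prod_range] at hprod
  rw [prod_range] at hne
  rw [e1, Matrix.det_mul, Matrix.det_mul, hAt, hTt, one_mul, Matrix.det_transpose, ← hprod] at hUt
  exact mul_left_cancel₀ hne hUt

/-- the Gram determinant of a lattice is an invariant -/
theorem gram_det {n : ℕ} (L : Submodule ℤ (V n)) (G : List (List ℤ)) (hL : IsLat L)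
    (hG : GrL L G) : ((mx (n + 1) G).det : ℝ) = - ZLattice.covolume L ^ 2 := by
  obtain ⟨a, ha, hB⟩ := Pool.Agent.CN2.H2.i_bas n L G hL hG
  rw [ha, Pool.Agent.CON.H58.covol_span, sq_abs, ← Pool.Agent.CON.H58.gram]
  have h2 : (Matrix.of fun i j => B (a i) (a j)) = (mx (n + 1) G).map (Int.castRingHom ℝ) := by
    ext i j
    simp [hB, mx]
  rw [h2, ← RingHom.mapMatrix_apply, ← RingHom.map_det]
  rfl

/-- the determinants -/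
def dt (l : List (Ty × ℤ)) : ℤ :=
  if l = [(.E 8, 1), (.D 4, 1)] then -4 else
  if l = [(.E 8, 1), (.A 3, 1)] then -4 else
  if l = [(.E 8, 1), (.A 1, 1), (.A 1, 1), (.A 1, 1)] then -8 else
  if l = [(.E 8, 1), (.A 2, 1)] then -3 else
  if l = [(.E 8, 1), (.A 1, 1), (.A 1, 1)] then -4 else
  if l = [(.E 8, 1), (.A 1, 1), (.A 1, 2)] then -8 else
  if l = [(.D 6, 1), (.D 4, 1)] then -16 else
  if l = [(.E 8, 1), (.A 1, 1)] then -2 else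
  if l = [(.E 8, 1), (.A 1, 2)] then -4 else
  if l = [(.E 8, 1), (.A 1, 3)] then -6 else
  if l = [(.E 7, 1), (.A 1, 1), (.A 1, 1)] then -8 else
  if l = [(.D 5, 1), (.D 4, 1)] then -16 else
  if l = [(.D 4, 1), (.D 4, 1), (.A 1, 1)] then -32 else
  0

lemma dc0 : ∃ A, dcert 14 (blk hyp (gr [(.E 8, 1), (.D 4, 1)])) A (-4) = true :=
  ⟨[[1, 0, 0, 0, 0, 0, 0, 0, 0, 0, 0, 0, 0, 0],
     [-1, 1, 0, 0, 0, 0, 0, 0, 0, 0, 0, 0, 0, 0],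
     [0, 0, 1, 0, 0, 0, 0, 0, 0, 0, 0, 0, 0, 0],
     [0, 0, 1, 2, 0, 0, 0, 0, 0, 0, 0, 0, 0, 0],
     [0, 0, 1, 2, 3, 0, 0, 0, 0, 0, 0, 0, 0, 0],
     [0, 0, 1, 2, 3, 4, 0, 0, 0, 0, 0, 0, 0, 0],
     [0, 0, 1, 2, 3, 4, 5, 0, 0, 0, 0, 0, 0, 0],
     [0, 0, 1, 2, 3, 4, 5, 6, 0, 0, 0, 0, 0, 0],
     [0, 0, 2, 4, 6, 8, 10, 5, 7, 0, 0, 0, 0, 0],
     [0, 0, 2, 4, 6, 8, 10, 5, 7, 4, 0, 0, 0, 0],
     [0, 0, 0, 0, 0, 0, 0, 0, 0, 0, 1, 0, 0, 0],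
     [0, 0, 0, 0, 0, 0, 0, 0, 0, 0, 1, 2, 0, 0],
     [0, 0, 0, 0, 0, 0, 0, 0, 0, 0, 1, 2, 3, 0],
     [0, 0, 0, 0, 0, 0, 0, 0, 0, 0, 1, 2, 1, 2]], by decide +kernel⟩

lemma dc1 : ∃ A, dcert 13 (blk hyp (gr [(.E 8, 1), (.A 3, 1)])) A (-4) = true :=
  ⟨[[1, 0, 0, 0, 0, 0, 0, 0, 0, 0, 0, 0, 0],
     [-1, 1, 0, 0, 0, 0, 0, 0, 0, 0, 0, 0, 0],
     [0, 0, 1, 0, 0, 0, 0, 0, 0, 0, 0, 0, 0],
     [0, 0, 1, 2, 0, 0, 0, 0, 0, 0, 0, 0, 0],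
     [0, 0, 1, 2, 3, 0, 0, 0, 0, 0, 0, 0, 0],
     [0, 0, 1, 2, 3, 4, 0, 0, 0, 0, 0, 0, 0],
     [0, 0, 1, 2, 3, 4, 5, 0, 0, 0, 0, 0, 0],
     [0, 0, 1, 2, 3, 4, 5, 6, 0, 0, 0, 0, 0],
     [0, 0, 2, 4, 6, 8, 10, 5, 7, 0, 0, 0, 0],
     [0, 0, 2, 4, 6, 8, 10, 5, 7, 4, 0, 0, 0],
     [0, 0, 0, 0, 0, 0, 0, 0, 0, 0, 1, 0, 0],
     [0, 0, 0, 0, 0, 0, 0, 0, 0, 0, 1, 2, 0],
     [0, 0, 0, 0, 0, 0, 0, 0, 0, 0, 1, 2, 3]], by decide +kernel⟩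

lemma dc2 : ∃ A, dcert 13 (blk hyp (gr [(.E 8, 1), (.A 1, 1), (.A 1, 1), (.A 1, 1)])) A (-8) = true :=
  ⟨[[1, 0, 0, 0, 0, 0, 0, 0, 0, 0, 0, 0, 0],
     [-1, 1, 0, 0, 0, 0, 0, 0, 0, 0, 0, 0, 0],
     [0, 0, 1, 0, 0, 0, 0, 0, 0, 0, 0, 0, 0],
     [0, 0, 1, 2, 0, 0, 0, 0, 0, 0, 0, 0, 0],
     [0, 0, 1, 2, 3, 0, 0, 0, 0, 0, 0, 0, 0],
     [0, 0, 1, 2, 3, 4, 0, 0, 0, 0, 0, 0, 0],
     [0, 0, 1, 2, 3, 4, 5, 0, 0, 0, 0, 0, 0],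
     [0, 0, 1, 2, 3, 4, 5, 6, 0, 0, 0, 0, 0],
     [0, 0, 2, 4, 6, 8, 10, 5, 7, 0, 0, 0, 0],
     [0, 0, 2, 4, 6, 8, 10, 5, 7, 4, 0, 0, 0],
     [0, 0, 0, 0, 0, 0, 0, 0, 0, 0, 1, 0, 0],
     [0, 0, 0, 0, 0, 0, 0, 0, 0, 0, 0, 1, 0],
     [0, 0, 0, 0, 0, 0, 0, 0, 0, 0, 0, 0, 1]], by decide +kernel⟩

lemma dc3 : ∃ A, dcert 12 (blk hyp (gr [(.E 8, 1), (.A 2, 1)])) A (-3) = true :=
  ⟨[[1, 0, 0, 0, 0, 0, 0, 0, 0, 0, 0, 0],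
     [-1, 1, 0, 0, 0, 0, 0, 0, 0, 0, 0, 0],
     [0, 0, 1, 0, 0, 0, 0, 0, 0, 0, 0, 0],
     [0, 0, 1, 2, 0, 0, 0, 0, 0, 0, 0, 0],
     [0, 0, 1, 2, 3, 0, 0, 0, 0, 0, 0, 0],
     [0, 0, 1, 2, 3, 4, 0, 0, 0, 0, 0, 0],
     [0, 0, 1, 2, 3, 4, 5, 0, 0, 0, 0, 0],
     [0, 0, 1, 2, 3, 4, 5, 6, 0, 0, 0, 0],
     [0, 0, 2, 4, 6, 8, 10, 5, 7, 0, 0, 0],
     [0, 0, 2, 4, 6, 8, 10, 5, 7, 4, 0, 0],
     [0, 0, 0, 0, 0, 0, 0, 0, 0, 0, 1, 0],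
     [0, 0, 0, 0, 0, 0, 0, 0, 0, 0, 1, 2]], by decide +kernel⟩

lemma dc4 : ∃ A, dcert 12 (blk hyp (gr [(.E 8, 1), (.A 1, 1), (.A 1, 1)])) A (-4) = true :=
  ⟨[[1, 0, 0, 0, 0, 0, 0, 0, 0, 0, 0, 0],
     [-1, 1, 0, 0, 0, 0, 0, 0, 0, 0, 0, 0],
     [0, 0, 1, 0, 0, 0, 0, 0, 0, 0, 0, 0],
     [0, 0, 1, 2, 0, 0, 0, 0, 0, 0, 0, 0],
     [0, 0, 1, 2, 3, 0, 0, 0, 0, 0, 0, 0],
     [0, 0, 1, 2, 3, 4, 0, 0, 0, 0, 0, 0],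
     [0, 0, 1, 2, 3, 4, 5, 0, 0, 0, 0, 0],
     [0, 0, 1, 2, 3, 4, 5, 6, 0, 0, 0, 0],
     [0, 0, 2, 4, 6, 8, 10, 5, 7, 0, 0, 0],
     [0, 0, 2, 4, 6, 8, 10, 5, 7, 4, 0, 0],
     [0, 0, 0, 0, 0, 0, 0, 0, 0, 0, 1, 0],
     [0, 0, 0, 0, 0, 0, 0, 0, 0, 0, 0, 1]], by decide +kernel⟩

lemma dc5 : ∃ A, dcert 12 (blk hyp (gr [(.E 8, 1), (.A 1, 1), (.A 1, 2)])) A (-8) = true :=
  ⟨[[1, 0, 0, 0, 0, 0, 0, 0, 0, 0, 0, 0],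
     [-1, 1, 0, 0, 0, 0, 0, 0, 0, 0, 0, 0],
     [0, 0, 1, 0, 0, 0, 0, 0, 0, 0, 0, 0],
     [0, 0, 1, 2, 0, 0, 0, 0, 0, 0, 0, 0],
     [0, 0, 1, 2, 3, 0, 0, 0, 0, 0, 0, 0],
     [0, 0, 1, 2, 3, 4, 0, 0, 0, 0, 0, 0],
     [0, 0, 1, 2, 3, 4, 5, 0, 0, 0, 0, 0],
     [0, 0, 1, 2, 3, 4, 5, 6, 0, 0, 0, 0],
     [0, 0, 2, 4, 6, 8, 10, 5, 7, 0, 0, 0],
     [0, 0, 2, 4, 6, 8, 10, 5, 7, 4, 0, 0],
     [0, 0, 0, 0, 0, 0, 0, 0, 0, 0, 1, 0],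
     [0, 0, 0, 0, 0, 0, 0, 0, 0, 0, 0, 1]], by decide +kernel⟩

lemma dc6 : ∃ A, dcert 12 (blk hyp (gr [(.D 6, 1), (.D 4, 1)])) A (-16) = true :=
  ⟨[[1, 0, 0, 0, 0, 0, 0, 0, 0, 0, 0, 0],
     [-1, 1, 0, 0, 0, 0, 0, 0, 0, 0, 0, 0],
     [0, 0, 1, 0, 0, 0, 0, 0, 0, 0, 0, 0],
     [0, 0, 1, 2, 0, 0, 0, 0, 0, 0, 0, 0],
     [0, 0, 1, 2, 3, 0, 0, 0, 0, 0, 0, 0],
     [0, 0, 1, 2, 3, 4, 0, 0, 0, 0, 0, 0],
     [0, 0, 1, 2, 3, 4, 5, 0, 0, 0, 0, 0],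
     [0, 0, 1, 2, 3, 4, 2, 3, 0, 0, 0, 0],
     [0, 0, 0, 0, 0, 0, 0, 0, 1, 0, 0, 0],
     [0, 0, 0, 0, 0, 0, 0, 0, 1, 2, 0, 0],
     [0, 0, 0, 0, 0, 0, 0, 0, 1, 2, 3, 0],
     [0, 0, 0, 0, 0, 0, 0, 0, 1, 2, 1, 2]], by decide +kernel⟩

lemma dc7 : ∃ A, dcert 11 (blk hyp (gr [(.E 8, 1), (.A 1, 1)])) A (-2) = true :=
  ⟨[[1, 0, 0, 0, 0, 0, 0, 0, 0, 0, 0],
     [-1, 1, 0, 0, 0, 0, 0, 0, 0, 0, 0],
     [0, 0, 1, 0, 0, 0, 0, 0, 0, 0, 0],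
     [0, 0, 1, 2, 0, 0, 0, 0, 0, 0, 0],
     [0, 0, 1, 2, 3, 0, 0, 0, 0, 0, 0],
     [0, 0, 1, 2, 3, 4, 0, 0, 0, 0, 0],
     [0, 0, 1, 2, 3, 4, 5, 0, 0, 0, 0],
     [0, 0, 1, 2, 3, 4, 5, 6, 0, 0, 0],
     [0, 0, 2, 4, 6, 8, 10, 5, 7, 0, 0],
     [0, 0, 2, 4, 6, 8, 10, 5, 7, 4, 0],
     [0, 0, 0, 0, 0, 0, 0, 0, 0, 0, 1]], by decide +kernel⟩

lemma dc8 : ∃ A, dcert 11 (blk hyp (gr [(.E 8, 1), (.A 1, 2)])) A (-4) = true :=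
  ⟨[[1, 0, 0, 0, 0, 0, 0, 0, 0, 0, 0],
     [-1, 1, 0, 0, 0, 0, 0, 0, 0, 0, 0],
     [0, 0, 1, 0, 0, 0, 0, 0, 0, 0, 0],
     [0, 0, 1, 2, 0, 0, 0, 0, 0, 0, 0],
     [0, 0, 1, 2, 3, 0, 0, 0, 0, 0, 0],
     [0, 0, 1, 2, 3, 4, 0, 0, 0, 0, 0],
     [0, 0, 1, 2, 3, 4, 5, 0, 0, 0, 0],
     [0, 0, 1, 2, 3, 4, 5, 6, 0, 0, 0],
     [0, 0, 2, 4, 6, 8, 10, 5, 7, 0, 0],
     [0, 0, 2, 4, 6, 8, 10, 5, 7, 4, 0],
     [0, 0, 0, 0, 0, 0, 0, 0, 0, 0, 1]], by decide +kernel⟩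

lemma dc9 : ∃ A, dcert 11 (blk hyp (gr [(.E 8, 1), (.A 1, 3)])) A (-6) = true :=
  ⟨[[1, 0, 0, 0, 0, 0, 0, 0, 0, 0, 0],
     [-1, 1, 0, 0, 0, 0, 0, 0, 0, 0, 0],
     [0, 0, 1, 0, 0, 0, 0, 0, 0, 0, 0],
     [0, 0, 1, 2, 0, 0, 0, 0, 0, 0, 0],
     [0, 0, 1, 2, 3, 0, 0, 0, 0, 0, 0],
     [0, 0, 1, 2, 3, 4, 0, 0, 0, 0, 0],
     [0, 0, 1, 2, 3, 4, 5, 0, 0, 0, 0],
     [0, 0, 1, 2, 3, 4, 5, 6, 0, 0, 0],
     [0, 0, 2, 4, 6, 8, 10, 5, 7, 0, 0],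
     [0, 0, 2, 4, 6, 8, 10, 5, 7, 4, 0],
     [0, 0, 0, 0, 0, 0, 0, 0, 0, 0, 1]], by decide +kernel⟩

lemma dc10 : ∃ A, dcert 11 (blk hyp (gr [(.E 7, 1), (.A 1, 1), (.A 1, 1)])) A (-8) = true :=
  ⟨[[1, 0, 0, 0, 0, 0, 0, 0, 0, 0, 0],
     [-1, 1, 0, 0, 0, 0, 0, 0, 0, 0, 0],
     [0, 0, 1, 0, 0, 0, 0, 0, 0, 0, 0],
     [0, 0, 1, 2, 0, 0, 0, 0, 0, 0, 0],
     [0, 0, 1, 2, 3, 0, 0, 0, 0, 0, 0],
     [0, 0, 1, 2, 3, 4, 0, 0, 0, 0, 0],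
     [0, 0, 1, 2, 3, 4, 5, 0, 0, 0, 0],
     [0, 0, 1, 2, 3, 4, 2, 3, 0, 0, 0],
     [0, 0, 1, 2, 3, 4, 2, 3, 2, 0, 0],
     [0, 0, 0, 0, 0, 0, 0, 0, 0, 1, 0],
     [0, 0, 0, 0, 0, 0, 0, 0, 0, 0, 1]], by decide +kernel⟩

lemma dc11 : ∃ A, dcert 11 (blk hyp (gr [(.D 5, 1), (.D 4, 1)])) A (-16) = true :=
  ⟨[[1, 0, 0, 0, 0, 0, 0, 0, 0, 0, 0],
     [-1, 1, 0, 0, 0, 0, 0, 0, 0, 0, 0],
     [0, 0, 1, 0, 0, 0, 0, 0, 0, 0, 0],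
     [0, 0, 1, 2, 0, 0, 0, 0, 0, 0, 0],
     [0, 0, 1, 2, 3, 0, 0, 0, 0, 0, 0],
     [0, 0, 1, 2, 3, 4, 0, 0, 0, 0, 0],
     [0, 0, 2, 4, 6, 3, 5, 0, 0, 0, 0],
     [0, 0, 0, 0, 0, 0, 0, 1, 0, 0, 0],
     [0, 0, 0, 0, 0, 0, 0, 1, 2, 0, 0],
     [0, 0, 0, 0, 0, 0, 0, 1, 2, 3, 0],
     [0, 0, 0, 0, 0, 0, 0, 1, 2, 1, 2]], by decide +kernel⟩

lemma dc12 : ∃ A, dcert 11 (blk hyp (gr [(.D 4, 1), (.D 4, 1), (.A 1, 1)])) A (-32) = true :=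
  ⟨[[1, 0, 0, 0, 0, 0, 0, 0, 0, 0, 0],
     [-1, 1, 0, 0, 0, 0, 0, 0, 0, 0, 0],
     [0, 0, 1, 0, 0, 0, 0, 0, 0, 0, 0],
     [0, 0, 1, 2, 0, 0, 0, 0, 0, 0, 0],
     [0, 0, 1, 2, 3, 0, 0, 0, 0, 0, 0],
     [0, 0, 1, 2, 1, 2, 0, 0, 0, 0, 0],
     [0, 0, 0, 0, 0, 0, 1, 0, 0, 0, 0],
     [0, 0, 0, 0, 0, 0, 1, 2, 0, 0, 0],
     [0, 0, 0, 0, 0, 0, 1, 2, 3, 0, 0],
     [0, 0, 0, 0, 0, 0, 1, 2, 1, 2, 0],
     [0, 0, 0, 0, 0, 0, 0, 0, 0, 0, 1]], by decide +kernel⟩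

theorem dt_det : ∀ l ∈ reps, (mx ((l.map fun T => T.1.rk).sum + 2) (blk hyp (gr l))).det = dt l := by
  intro l hl
  simp only [reps, List.mem_cons, List.not_mem_nil, or_false] at hl
  rcases hl with rfl | rfl | rfl | rfl | rfl | rfl | rfl | rfl | rfl | rfl | rfl | rfl | rfl
  · obtain ⟨A, hA⟩ := dc0
    exact dcert_det _ _ A _ hA
  · obtain ⟨A, hA⟩ := dc1
    exact dcert_det _ _ A _ hA
  · obtain ⟨A, hA⟩ := dc2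
    exact dcert_det _ _ A _ hA
  · obtain ⟨A, hA⟩ := dc3
    exact dcert_det _ _ A _ hA
  · obtain ⟨A, hA⟩ := dc4
    exact dcert_det _ _ A _ hA
  · obtain ⟨A, hA⟩ := dc5
    exact dcert_det _ _ A _ hA
  · obtain ⟨A, hA⟩ := dc6
    exact dcert_det _ _ A _ hA
  · obtain ⟨A, hA⟩ := dc7
    exact dcert_det _ _ A _ hA
  · obtain ⟨A, hA⟩ := dc8
    exact dcert_det _ _ A _ hA
  · obtain ⟨A, hA⟩ := dc9
    exact dcert_det _ _ A _ hA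
  · obtain ⟨A, hA⟩ := dc10
    exact dcert_det _ _ A _ hA
  · obtain ⟨A, hA⟩ := dc11
    exact dcert_det _ _ A _ hA
  · obtain ⟨A, hA⟩ := dc12
    exact dcert_det _ _ A _ hA

/-- the rank and the determinant determine the lattice -/
theorem dt_inj : ∀ l ∈ reps, ∀ l' ∈ reps, (l.map fun T => T.1.rk).sum = (l'.map fun T => T.1.rk).sum →
    dt l = dt l' → l = l' := by
  decide +kernel

/-- module Q_DET -/
theorem q_det : Q_DET := by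
  intro n L l hl l' hl' h1 h2 hL hG hG'
  have e := gram_det L _ hL hG
  have e' := gram_det L _ hL hG'
  have d := dt_det l hl
  have d' := dt_det l' hl'
  have hn : (l.map fun T => T.1.rk).sum + 2 = n + 1 := by omega
  have hn' : (l'.map fun T => T.1.rk).sum + 2 = n + 1 := by omega
  rw [hn] at d
  rw [hn'] at d'
  apply dt_inj l hl l' hl' (by omega)
  rw [← d, ← d']
  have e2 := e.trans e'.symm
  exact_mod_cast e2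

end Pool.Agent.CN3.H51

end
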