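import Pool.Agent.Helper2_CN3.Stmts
import Pool.Agent.Helper2_CN2.IChg
import Pool.Agent.Helper2_CN2.IBas
import Pool.Agent.Helper63_CON.Spn

/-!
Squad CN3, module Q_OVR: no even overlattice invariant under the reflections in the roots
of norm 4
-/

set_option autoImplicit false

noncomputable section

namespace Pool.Agent.CN3.H51

open Pool.Agent.H25Cong Pool.Agent.CON Pool.Agent.CN2 Pool.Agent.CN3

/-- all lists of length g with entries 0, ..., ex - 1 -/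
def allk (ex : ℕ) : ℕ → List (List ℤ)
  | 0 => [[]]
  | g + 1 => List.flatMap (fun a : ℕ => (allk ex g).map fun k => (a : ℤ) :: k) (List.range ex)

lemma mem_allk (ex : ℕ) : ∀ (g : ℕ) (k : ℕ → ℤ), (∀ s < g, 0 ≤ k s ∧ k s < ex) →
    (List.range g).map k ∈ allk ex g := by
  intro g
  induction g with
  | zero => intro k _; simp [allk]
  | succ g ih =>
    intro k hk
    rw [List.range_succ_eq_map, List.map_cons, List.map_map]
    simp only [allk, List.mem_flatMap, List.mem_map]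
    have h0 := hk 0 (by omega)
    refine ⟨(k 0).toNat, List.mem_range.mpr (by omega), (List.range g).map (k ∘ Nat.succ), ?_, ?_⟩
    · exact ih _ fun s hs => hk (s + 1) (by omega)
    · rw [Int.toNat_of_nonneg h0.1]

/-- the combination of the rows of γ with coefficients k -/
def lw (m : ℕ) (γ : List (List ℤ)) (k : List ℤ) : List ℤ :=
  (List.range m).map fun j => dot k (γ.map fun r => r.getD j 0)

/-- the bilinear form on lists -/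
def qf (G : List (List ℤ)) (u v : List ℤ) : ℤ := dot u (G.map fun row => dot row v)

/-- the certificate -/
def ocert (m ex g : ℕ) (G K γ κ R : List (List ℤ)) : Bool :=
  decide (G.length = m) && decide (K.length = m) && decide (γ.length = g) &&
  G.all (fun r => decide (r.length ≤ m)) && K.all (fun r => decide (r.length ≤ m)) &&
  κ.all (fun r => decide (r.length ≤ g)) && R.all (fun r => decide (r.length ≤ m)) &&
  decide (mulT K G = mat m fun i j => if i = j then (ex : ℤ) else 0) &&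
  ((List.range m).all fun i => (List.range m).all fun j =>
    decide ((ex : ℤ) ∣ ent K i j - dot (κ.getD i []) (γ.map fun r => r.getD j 0))) &&
  (R.all fun r => decide (qf G r r = 4) && G.all fun row => decide ((2 : ℤ) ∣ dot row r)) &&
  ((allk ex g).all fun k => decide (¬ (2 * (ex : ℤ) ^ 2) ∣ qf G (lw m γ k) (lw m γ k)) ||
    (R.any fun r => decide (¬ (2 * (ex : ℤ)) ∣ qf G (lw m γ k) r)) ||
    (lw m γ k).all fun v => decide ((ex : ℤ) ∣ v))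

lemma col_getD (γ : List (List ℤ)) (j s : ℕ) : (γ.map fun r => r.getD j 0).getD s 0 = ent γ s j := by
  unfold ent
  by_cases h : s < γ.length
  · rw [List.getD_eq_getElem _ _ (by simpa using h), List.getElem_map,
      List.getD_eq_getElem γ _ h]
  · rw [List.getD_eq_default _ _ (by simpa using h), List.getD_eq_default γ _ (by omega)]
    rfl

lemma dot_col (g : ℕ) (γ : List (List ℤ)) (k : List ℤ) (hk : k.length ≤ g) (j : ℕ) :
    dot k (γ.map fun r => r.getD j 0) = ∑ s ∈ Finset.range g, k.getD s 0 * ent γ s j := by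
  rw [Pool.Agent.CN2.H2.ic_dot g _ _ hk]
  exact Finset.sum_congr rfl fun s _ => by rw [col_getD]

lemma map_range_getD (m : ℕ) (f : ℕ → ℤ) {j : ℕ} (hj : j < m) :
    ((List.range m).map f).getD j 0 = f j := by
  rw [List.getD_eq_getElem _ _ (by simpa using hj), List.getElem_map, List.getElem_range]

lemma qf_eq (m : ℕ) (G : List (List ℤ)) (u v : List ℤ) (hG : G.length = m)
    (hGr : ∀ r ∈ G, r.length ≤ m) (hu : u.length ≤ m) :
    qf G u v = ∑ i ∈ Finset.range m, ∑ j ∈ Finset.range m,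
      u.getD i 0 * v.getD j 0 * ent G i j := by
  unfold qf
  rw [Pool.Agent.CN2.H2.ic_dot m _ _ hu]
  refine Finset.sum_congr rfl fun i hi => ?_
  have hi' := Finset.mem_range.mp hi
  rw [List.getD_eq_getElem (G.map fun row => dot row v) _ (by simp; omega), List.getElem_map,
    Pool.Agent.CN2.H2.ic_dot m _ _ (hGr _ (List.getElem_mem _)), Finset.mul_sum]
  refine Finset.sum_congr rfl fun j _ => ?_
  unfold ent
  rw [List.getD_eq_getElem G _ (by omega)]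
  ring

/-- the vector with coordinates w -/
def vc {n : ℕ} (a : Fin (n + 1) → V n) (w : ℕ → ℤ) : V n := ∑ j : Fin (n + 1), ((w j : ℤ) : ℝ) • a j

lemma B_vc {n : ℕ} (a : Fin (n + 1) → V n) (G : List (List ℤ))
    (hB : ∀ i j, B (a i) (a j) = ent G i j) (u v : ℕ → ℤ) :
    B (vc a u) (vc a v) = ((∑ i ∈ Finset.range (n + 1), ∑ j ∈ Finset.range (n + 1),
      u i * v j * ent G i j : ℤ) : ℝ) := by
  unfold vc
  rw [B_sum_left, Finset.sum_range]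
  push_cast
  refine Finset.sum_congr rfl fun i _ => ?_
  rw [B_sum_right, Finset.sum_range]
  refine Finset.sum_congr rfl fun j _ => ?_
  rw [B_smul_left, B_smul_right, hB]
  ring

lemma vc_mem {n : ℕ} (a : Fin (n + 1) → V n) (L : Submodule ℤ (V n)) (ha : ∀ i, a i ∈ L)
    (w : ℕ → ℤ) : vc a w ∈ L := by
  refine L.sum_mem fun j _ => ?_
  have : ((w j : ℤ) : ℝ) • a j = (w j) • a j := Int.cast_smul_eq_zsmul ℝ _ _
  rw [this]
  exact L.smul_mem _ (ha j)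

/-- the certificate implies the statement -/
theorem ovr_of (n : ℕ) (L L' : Submodule ℤ (V n)) (ex g : ℕ) (G K γ κ R : List (List ℤ))
    (h : ocert (n + 1) ex g G K γ κ R = true) (hex : 0 < ex) (hG : GrL L G) (hL : EvenLat L)
    (hL' : EvenLat L') (hle : L ≤ L') (hint : ∀ x ∈ L', ∀ y ∈ L, ∃ k : ℤ, B x y = k)
    (hroot : ∀ r ∈ L, B r r = 4 → (∀ y ∈ L, ∃ k : ℤ, B r y = 2 * k) → ∀ x ∈ L', S r x ∈ L') :
    L' = L := by
  set m := n + 1 with hm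
  simp only [ocert, Bool.and_eq_true, decide_eq_true_eq, List.all_eq_true, List.mem_range,
    Bool.or_eq_true, List.any_eq_true] at h
  obtain ⟨⟨⟨⟨⟨⟨⟨⟨⟨⟨hGl, hKl⟩, hγl⟩, hGr⟩, hKr⟩, hκr⟩, hRr⟩, hKG⟩, hκ⟩, hR⟩, hall⟩ := h
  obtain ⟨a, haL, hB⟩ := Pool.Agent.CN2.H2.i_bas n L G hL.lat hG
  have haL' : ∀ i, a i ∈ L := fun i => by rw [haL]; exact Submodule.subset_span ⟨i, rfl⟩
  apply le_antisymm _ hle
  intro x hx
  -- the coordinates
  choose t ht using fun i : Fin (n + 1) => hint x hx (a i) (haL' i)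
  let t' : ℕ → ℤ := fun i => if hi : i < n + 1 then t ⟨i, hi⟩ else 0
  have ht' : ∀ i : Fin (n + 1), t' i = t i := fun i => dif_pos i.2
  let y : ℕ → ℤ := fun j => ∑ i ∈ Finset.range m, t' i * ent K i j
  have hKGe : ∀ k < m, ∀ i < m, ∑ j ∈ Finset.range m, ent K k j * ent G i j =
      if k = i then (ex : ℤ) else 0 := by
    intro k hk i hi
    have e1 := congrArg (fun X => ent X k i) hKG
    rw [Pool.Agent.CN2.H2.ic_mat m _ hk hi,
      Pool.Agent.CN2.H2.ic_mulT (m := m) _ _ (by omega) (by omega) hKr] at e1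
    exact e1
  have hBvc : ∀ (w : ℕ → ℤ) (i : Fin (n + 1)), B (vc a w) (a i) =
      ((∑ j ∈ Finset.range m, w j * ent G i j : ℤ) : ℝ) := by
    intro w i
    unfold vc
    rw [B_sum_left, Finset.sum_range]
    push_cast
    refine Finset.sum_congr rfl fun j _ => ?_
    rw [B_smul_left, B_comm, hB]
  have hxy : (ex : ℝ) • x = vc a y := by
    have h0 : (ex : ℝ) • x - vc a y = 0 := by
      by_contra hne
      obtain ⟨w, hw, hw'⟩ := Pool.Agent.CON.H63.exists_ne haL hne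
      apply hw'
      have hz : ∀ i, B (a i) ((ex : ℝ) • x - vc a y) = 0 := by
        intro i
        rw [B_comm, B_sub_left, B_smul_left, ht i, hBvc]
        have e2 : (∑ j ∈ Finset.range m, y j * ent G i j) = (ex : ℤ) * t i := by
          have e3 : ∀ j ∈ Finset.range m, y j * ent G i j =
              ∑ k ∈ Finset.range m, t' k * (ent K k j * ent G i j) := by
            intro j _
            simp only [y]
            rw [Finset.sum_mul]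
            exact Finset.sum_congr rfl fun k _ => by ring
          rw [Finset.sum_congr rfl e3, Finset.sum_comm]
          have e4 : ∀ k ∈ Finset.range m, ∑ j ∈ Finset.range m, t' k * (ent K k j * ent G i j) =
              if k = (i : ℕ) then t' k * (ex : ℤ) else 0 := by
            intro k hk
            rw [← Finset.mul_sum, hKGe k (Finset.mem_range.mp hk) i i.2]
            split_ifs <;> simp
          rw [Finset.sum_congr rfl e4, Finset.sum_ite_eq' (Finset.range m) (i : ℕ)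
            (fun k => t' k * (ex : ℤ)), if_pos (Finset.mem_range.mpr i.2), ht' i]
          ring
        rw [e2]
        push_cast
        ring
      rw [haL] at hw
      refine Submodule.span_induction (p := fun w _ => B w ((ex : ℝ) • x - vc a y) = 0)
        ?_ ?_ ?_ ?_ hw
      · rintro _ ⟨i, rfl⟩; exact hz i
      · simp
      · intro u v _ _ hu hv; rw [B_add_left, hu, hv, add_zero]
      · intro c u _ hu
        have : c • u = (c : ℝ) • u := (Int.cast_smul_eq_zsmul ℝ _ _).symm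
        rw [this, B_smul_left, hu, mul_zero]
    exact sub_eq_zero.mp h0
  -- reduction modulo ex
  let c : ℕ → ℤ := fun s => ∑ i ∈ Finset.range m, t' i * (κ.getD i []).getD s 0
  let ks : List ℤ := (List.range g).map fun s => c s % ex
  have hexZ : (0 : ℤ) < ex := by exact_mod_cast hex
  have hks : ks ∈ allk ex g := mem_allk ex g _ fun s _ =>
    ⟨Int.emod_nonneg _ hexZ.ne', Int.emod_lt_of_pos _ hexZ⟩
  let w : List ℤ := lw m γ ks
  have hwl : w.length = m := by simp [w, lw]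
  have hwg : ∀ j < m, w.getD j 0 = ∑ s ∈ Finset.range g, (c s % ex) * ent γ s j := by
    intro j hj
    simp only [w, lw]
    rw [map_range_getD m _ hj, dot_col g _ _ (by simp [ks])]
    refine Finset.sum_congr rfl fun s hs => ?_
    simp only [ks]
    rw [map_range_getD g _ (Finset.mem_range.mp hs)]
  have hdvd : ∀ j < m, (ex : ℤ) ∣ y j - w.getD j 0 := by
    intro j hj
    rw [hwg j hj]
    have e1 : y j - ∑ s ∈ Finset.range g, (c s % ex) * ent γ s j =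
        (∑ i ∈ Finset.range m, t' i * (ent K i j - ∑ s ∈ Finset.range g,
          (κ.getD i []).getD s 0 * ent γ s j)) +
        ∑ s ∈ Finset.range g, (c s - c s % ex) * ent γ s j := by
      simp only [y, c, mul_sub, Finset.sum_sub_distrib, sub_mul, Finset.mul_sum, Finset.sum_mul]
      rw [Finset.sum_comm (s := Finset.range g)]
      simp only [mul_assoc]
      ring
    rw [e1]
    apply dvd_add
    · refine Finset.dvd_sum fun i hi => Dvd.dvd.mul_left ?_ _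
      have h1 := hκ i (Finset.mem_range.mp hi) j hj
      rw [dot_col g] at h1
      · exact h1
      · by_cases hi' : i < κ.length
        · rw [List.getD_eq_getElem _ _ hi']
          exact hκr _ (List.getElem_mem _)
        · rw [List.getD_eq_default _ _ (by omega)]
          simp
    · refine Finset.dvd_sum fun s _ => Dvd.dvd.mul_right ?_ _
      exact Int.dvd_self_sub_emod
  choose! l hl using hdvd
  -- the reduced vector
  let x' : V n := x - vc a l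
  have hx' : x' ∈ L' := L'.sub_mem hx (hle (vc_mem a L haL' l))
  have hx'e : (ex : ℝ) • x' = vc a (fun j => w.getD j 0) := by
    simp only [x']
    rw [smul_sub, hxy]
    unfold vc
    rw [Finset.smul_sum, ← Finset.sum_sub_distrib]
    refine Finset.sum_congr rfl fun j _ => ?_
    rw [smul_smul, ← sub_smul]
    congr 1
    have := hl j j.2
    have e2 : ((y j : ℤ) : ℝ) - ((w.getD j 0 : ℤ) : ℝ) = (ex : ℝ) * ((l j : ℤ) : ℝ) := by
      exact_mod_cast this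
    linarith
  have hexR : (ex : ℝ) ≠ 0 := by exact_mod_cast hex.ne'
  have hn1 : (2 * (ex : ℤ) ^ 2) ∣ qf G w w := by
    obtain ⟨q, hq⟩ := hL'.even x' hx'
    refine ⟨q, ?_⟩
    have e1 : B ((ex : ℝ) • x') ((ex : ℝ) • x') = (ex : ℝ) * ((ex : ℝ) * (2 * q)) := by
      rw [B_smul_left, B_smul_right, hq]
    rw [hx'e, B_vc a G hB, ← qf_eq m G w w hGl hGr hwl.le] at e1
    have e2 : ((qf G w w : ℤ) : ℝ) = ((2 * (ex : ℤ) ^ 2 * q : ℤ) : ℝ) := by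
      rw [e1]; push_cast; ring
    exact_mod_cast e2
  have hn2 : ∀ r ∈ R, (2 * (ex : ℤ)) ∣ qf G w r := by
    intro r hr
    obtain ⟨hr4, hr2⟩ := hR r hr
    have hrl := hRr r hr
    set ρ : V n := vc a (fun j => r.getD j 0) with hρ
    have hρL : ρ ∈ L := vc_mem a L haL' _
    have hρ4 : B ρ ρ = 4 := by
      rw [hρ, B_vc a G hB, ← qf_eq m G r r hGl hGr hrl, hr4]
      norm_num
    have hρ2 : ∀ y ∈ L, ∃ k : ℤ, B ρ y = 2 * k := by
      intro y hy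
      rw [haL] at hy
      refine Submodule.span_induction (p := fun y _ => ∃ k : ℤ, B ρ y = 2 * k)
        ?_ ?_ ?_ ?_ hy
      · rintro _ ⟨i, rfl⟩
        have hi : (i : ℕ) < G.length := by rw [hGl]; exact i.2
        obtain ⟨k, hk⟩ := hr2 (G[(i : ℕ)]) (List.getElem_mem hi)
        refine ⟨k, ?_⟩
        rw [hρ, hBvc]
        rw [Pool.Agent.CN2.H2.ic_dot m _ _ (hGr _ (List.getElem_mem hi))] at hk
        have e3 : (∑ j ∈ Finset.range m, r.getD j 0 * ent G i j) = 2 * k := by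
          rw [← hk]
          refine Finset.sum_congr rfl fun j _ => ?_
          unfold ent
          rw [List.getD_eq_getElem G _ hi]
          ring
        rw [e3]
        push_cast
        ring
      · exact ⟨0, by simp⟩
      · rintro u v _ _ ⟨k, hk⟩ ⟨k', hk'⟩
        exact ⟨k + k', by rw [B_add_right, hk, hk']; push_cast; ring⟩
      · rintro z u _ ⟨k, hk⟩
        refine ⟨z * k, ?_⟩
        have : z • u = (z : ℝ) • u := (Int.cast_smul_eq_zsmul ℝ _ _).symm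
        rw [this, B_smul_right, hk]
        push_cast
        ring
    have hS := hroot ρ hρL hρ4 hρ2 x' hx'
    obtain ⟨b, hb⟩ := hint x' hx' ρ hρL
    have hd : x' - S ρ x' ∈ L' := L'.sub_mem hx' hS
    have hd' : x' - S ρ x' = ((b : ℝ) / 2) • ρ := by
      rw [S_apply, hρ4, hb, sub_sub_cancel]
      congr 1
      ring
    obtain ⟨k, hk⟩ := hL'.even _ hd
    rw [hd', B_smul_left, B_smul_right, hρ4] at hk
    have hk2 : b * b = 2 * k := by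
      have : (b : ℝ) * b = 2 * k := by linarith
      exact_mod_cast this
    have hb2 : (2 : ℤ) ∣ b := by
      have h2 : (2 : ℤ) ∣ b * b := ⟨k, hk2⟩
      rcases Int.prime_two.dvd_or_dvd h2 with h3 | h3 <;> exact h3
    obtain ⟨b', rfl⟩ := hb2
    refine ⟨b', ?_⟩
    have e1 : B ((ex : ℝ) • x') ρ = (ex : ℝ) * (2 * b') := by
      rw [B_smul_left, hb]
      push_cast
      ring
    rw [hx'e, hρ, B_vc a G hB, ← qf_eq m G w r hGl hGr hwl.le] at e1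
    have e2 : ((qf G w r : ℤ) : ℝ) = ((2 * (ex : ℤ) * b' : ℤ) : ℝ) := by
      rw [e1]; push_cast; ring
    exact_mod_cast e2
  have hall' := hall ks hks
  have hw0 : ∀ j < m, (ex : ℤ) ∣ w.getD j 0 := by
    intro j hj
    rcases hall' with (h1 | ⟨r, hr, h1⟩) | h1
    · exact absurd hn1 h1
    · exact absurd (hn2 r hr) h1
    · have : w.getD j 0 ∈ w := by
        rw [List.getD_eq_getElem _ _ (by omega)]
        exact List.getElem_mem _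
      exact h1 _ this
  choose! q hq using hw0
  have hx'L : x' ∈ L := by
    have e1 : x' = vc a q := by
      have e2 : (ex : ℝ) • x' = (ex : ℝ) • vc a q := by
        rw [hx'e]
        unfold vc
        rw [Finset.smul_sum]
        refine Finset.sum_congr rfl fun j _ => ?_
        have e3 : ((w.getD j 0 : ℤ) : ℝ) = (ex : ℝ) * ((q j : ℤ) : ℝ) := by
          exact_mod_cast hq j j.2
        rw [smul_smul, ← e3]
      exact smul_right_injective _ hexR e2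
    rw [e1]
    exact vc_mem a L haL' q
  have : x = x' + vc a l := by simp [x']
  rw [this]
  exact L.add_mem hx'L (vc_mem a L haL' l)

lemma oc0 : ∃ (ex g : ℕ) (K γ κ R : List (List ℤ)), 0 < ex ∧
    ocert 14 ex g (blk hyp (gr [(.E 8, 1), (.D 4, 1)])) K γ κ R = true :=
  ⟨2, 2, [[0, -2, 0, 0, 0, 0, 0, 0, 0, 0, 0, 0, 0, 0],
     [-2, 0, 0, 0, 0, 0, 0, 0, 0, 0, 0, 0, 0, 0],
     [0, 0, 4, 6, 8, 10, 12, 6, 8, 4, 0, 0, 0, 0],
     [0, 0, 6, 12, 16, 20, 24, 12, 16, 8, 0, 0, 0, 0],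
     [0, 0, 8, 16, 24, 30, 36, 18, 24, 12, 0, 0, 0, 0],
     [0, 0, 10, 20, 30, 40, 48, 24, 32, 16, 0, 0, 0, 0],
     [0, 0, 12, 24, 36, 48, 60, 30, 40, 20, 0, 0, 0, 0],
     [0, 0, 6, 12, 18, 24, 30, 16, 20, 10, 0, 0, 0, 0],
     [0, 0, 8, 16, 24, 32, 40, 20, 28, 14, 0, 0, 0, 0],
     [0, 0, 4, 8, 12, 16, 20, 10, 14, 8, 0, 0, 0, 0],
     [0, 0, 0, 0, 0, 0, 0, 0, 0, 0, 2, 2, 1, 1],
     [0, 0, 0, 0, 0, 0, 0, 0, 0, 0, 2, 4, 2, 2],
     [0, 0, 0, 0, 0, 0, 0, 0, 0, 0, 1, 2, 2, 1],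
     [0, 0, 0, 0, 0, 0, 0, 0, 0, 0, 1, 2, 1, 2]],
   [[0, 0, 0, 0, 0, 0, 0, 0, 0, 0, 1, 0, 1, 0],
     [0, 0, 0, 0, 0, 0, 0, 0, 0, 0, 0, 0, 1, 1]],
   [[0, 0],
     [0, 0],
     [0, 0],
     [0, 0],
     [0, 0],
     [0, 0],
     [0, 0],
     [0, 0],
     [0, 0],
     [0, 0],
     [0, 1],
     [0, 0],
     [1, 1],
     [1, 0]],
   [], by norm_num, by decide +kernel⟩

lemma oc1 : ∃ (ex g : ℕ) (K γ κ R : List (List ℤ)), 0 < ex ∧
    ocert 13 ex g (blk hyp (gr [(.E 8, 1), (.A 3, 1)])) K γ κ R = true :=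
  ⟨4, 1, [[0, -4, 0, 0, 0, 0, 0, 0, 0, 0, 0, 0, 0],
     [-4, 0, 0, 0, 0, 0, 0, 0, 0, 0, 0, 0, 0],
     [0, 0, 8, 12, 16, 20, 24, 12, 16, 8, 0, 0, 0],
     [0, 0, 12, 24, 32, 40, 48, 24, 32, 16, 0, 0, 0],
     [0, 0, 16, 32, 48, 60, 72, 36, 48, 24, 0, 0, 0],
     [0, 0, 20, 40, 60, 80, 96, 48, 64, 32, 0, 0, 0],
     [0, 0, 24, 48, 72, 96, 120, 60, 80, 40, 0, 0, 0],
     [0, 0, 12, 24, 36, 48, 60, 32, 40, 20, 0, 0, 0],
     [0, 0, 16, 32, 48, 64, 80, 40, 56, 28, 0, 0, 0],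
     [0, 0, 8, 16, 24, 32, 40, 20, 28, 16, 0, 0, 0],
     [0, 0, 0, 0, 0, 0, 0, 0, 0, 0, 3, 2, 1],
     [0, 0, 0, 0, 0, 0, 0, 0, 0, 0, 2, 4, 2],
     [0, 0, 0, 0, 0, 0, 0, 0, 0, 0, 1, 2, 3]],
   [[0, 0, 0, 0, 0, 0, 0, 0, 0, 0, 1, 2, 3]],
   [[0],
     [0],
     [0],
     [0],
     [0],
     [0],
     [0],
     [0],
     [0],
     [0],
     [3],
     [2],
     [1]],
   [], by norm_num, by decide +kernel⟩

lemma oc2 : ∃ (ex g : ℕ) (K γ κ R : List (List ℤ)), 0 < ex ∧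
    ocert 13 ex g (blk hyp (gr [(.E 8, 1), (.A 1, 1), (.A 1, 1), (.A 1, 1)])) K γ κ R = true :=
  ⟨2, 3, [[0, -2, 0, 0, 0, 0, 0, 0, 0, 0, 0, 0, 0],
     [-2, 0, 0, 0, 0, 0, 0, 0, 0, 0, 0, 0, 0],
     [0, 0, 4, 6, 8, 10, 12, 6, 8, 4, 0, 0, 0],
     [0, 0, 6, 12, 16, 20, 24, 12, 16, 8, 0, 0, 0],
     [0, 0, 8, 16, 24, 30, 36, 18, 24, 12, 0, 0, 0],
     [0, 0, 10, 20, 30, 40, 48, 24, 32, 16, 0, 0, 0],
     [0, 0, 12, 24, 36, 48, 60, 30, 40, 20, 0, 0, 0],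
     [0, 0, 6, 12, 18, 24, 30, 16, 20, 10, 0, 0, 0],
     [0, 0, 8, 16, 24, 32, 40, 20, 28, 14, 0, 0, 0],
     [0, 0, 4, 8, 12, 16, 20, 10, 14, 8, 0, 0, 0],
     [0, 0, 0, 0, 0, 0, 0, 0, 0, 0, 1, 0, 0],
     [0, 0, 0, 0, 0, 0, 0, 0, 0, 0, 0, 1, 0],
     [0, 0, 0, 0, 0, 0, 0, 0, 0, 0, 0, 0, 1]],
   [[0, 0, 0, 0, 0, 0, 0, 0, 0, 0, 0, 1, 0],
     [0, 0, 0, 0, 0, 0, 0, 0, 0, 0, 0, 0, 1],
     [0, 0, 0, 0, 0, 0, 0, 0, 0, 0, 1, 0, 0]],
   [[0, 0, 0],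
     [0, 0, 0],
     [0, 0, 0],
     [0, 0, 0],
     [0, 0, 0],
     [0, 0, 0],
     [0, 0, 0],
     [0, 0, 0],
     [0, 0, 0],
     [0, 0, 0],
     [0, 0, 1],
     [1, 0, 0],
     [0, 1, 0]],
   [], by norm_num, by decide +kernel⟩

lemma oc3 : ∃ (ex g : ℕ) (K γ κ R : List (List ℤ)), 0 < ex ∧
    ocert 12 ex g (blk hyp (gr [(.E 8, 1), (.A 2, 1)])) K γ κ R = true :=
  ⟨3, 1, [[0, -3, 0, 0, 0, 0, 0, 0, 0, 0, 0, 0],
     [-3, 0, 0, 0, 0, 0, 0, 0, 0, 0, 0, 0],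
     [0, 0, 6, 9, 12, 15, 18, 9, 12, 6, 0, 0],
     [0, 0, 9, 18, 24, 30, 36, 18, 24, 12, 0, 0],
     [0, 0, 12, 24, 36, 45, 54, 27, 36, 18, 0, 0],
     [0, 0, 15, 30, 45, 60, 72, 36, 48, 24, 0, 0],
     [0, 0, 18, 36, 54, 72, 90, 45, 60, 30, 0, 0],
     [0, 0, 9, 18, 27, 36, 45, 24, 30, 15, 0, 0],
     [0, 0, 12, 24, 36, 48, 60, 30, 42, 21, 0, 0],
     [0, 0, 6, 12, 18, 24, 30, 15, 21, 12, 0, 0],
     [0, 0, 0, 0, 0, 0, 0, 0, 0, 0, 2, 1],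
     [0, 0, 0, 0, 0, 0, 0, 0, 0, 0, 1, 2]],
   [[0, 0, 0, 0, 0, 0, 0, 0, 0, 0, 2, 1]],
   [[0],
     [0],
     [0],
     [0],
     [0],
     [0],
     [0],
     [0],
     [0],
     [0],
     [1],
     [2]],
   [], by norm_num, by decide +kernel⟩

lemma oc4 : ∃ (ex g : ℕ) (K γ κ R : List (List ℤ)), 0 < ex ∧
    ocert 12 ex g (blk hyp (gr [(.E 8, 1), (.A 1, 1), (.A 1, 1)])) K γ κ R = true :=
  ⟨2, 2, [[0, -2, 0, 0, 0, 0, 0, 0, 0, 0, 0, 0],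
     [-2, 0, 0, 0, 0, 0, 0, 0, 0, 0, 0, 0],
     [0, 0, 4, 6, 8, 10, 12, 6, 8, 4, 0, 0],
     [0, 0, 6, 12, 16, 20, 24, 12, 16, 8, 0, 0],
     [0, 0, 8, 16, 24, 30, 36, 18, 24, 12, 0, 0],
     [0, 0, 10, 20, 30, 40, 48, 24, 32, 16, 0, 0],
     [0, 0, 12, 24, 36, 48, 60, 30, 40, 20, 0, 0],
     [0, 0, 6, 12, 18, 24, 30, 16, 20, 10, 0, 0],
     [0, 0, 8, 16, 24, 32, 40, 20, 28, 14, 0, 0],
     [0, 0, 4, 8, 12, 16, 20, 10, 14, 8, 0, 0],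
     [0, 0, 0, 0, 0, 0, 0, 0, 0, 0, 1, 0],
     [0, 0, 0, 0, 0, 0, 0, 0, 0, 0, 0, 1]],
   [[0, 0, 0, 0, 0, 0, 0, 0, 0, 0, 0, 1],
     [0, 0, 0, 0, 0, 0, 0, 0, 0, 0, 1, 0]],
   [[0, 0],
     [0, 0],
     [0, 0],
     [0, 0],
     [0, 0],
     [0, 0],
     [0, 0],
     [0, 0],
     [0, 0],
     [0, 0],
     [0, 1],
     [1, 0]],
   [], by norm_num, by decide +kernel⟩

lemma oc5 : ∃ (ex g : ℕ) (K γ κ R : List (List ℤ)), 0 < ex ∧
    ocert 12 ex g (blk hyp (gr [(.E 8, 1), (.A 1, 1), (.A 1, 2)])) K γ κ R = true :=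
  ⟨4, 2, [[0, -4, 0, 0, 0, 0, 0, 0, 0, 0, 0, 0],
     [-4, 0, 0, 0, 0, 0, 0, 0, 0, 0, 0, 0],
     [0, 0, 8, 12, 16, 20, 24, 12, 16, 8, 0, 0],
     [0, 0, 12, 24, 32, 40, 48, 24, 32, 16, 0, 0],
     [0, 0, 16, 32, 48, 60, 72, 36, 48, 24, 0, 0],
     [0, 0, 20, 40, 60, 80, 96, 48, 64, 32, 0, 0],
     [0, 0, 24, 48, 72, 96, 120, 60, 80, 40, 0, 0],
     [0, 0, 12, 24, 36, 48, 60, 32, 40, 20, 0, 0],
     [0, 0, 16, 32, 48, 64, 80, 40, 56, 28, 0, 0],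
     [0, 0, 8, 16, 24, 32, 40, 20, 28, 16, 0, 0],
     [0, 0, 0, 0, 0, 0, 0, 0, 0, 0, 2, 0],
     [0, 0, 0, 0, 0, 0, 0, 0, 0, 0, 0, 1]],
   [[0, 0, 0, 0, 0, 0, 0, 0, 0, 0, 0, 1],
     [0, 0, 0, 0, 0, 0, 0, 0, 0, 0, 2, 0]],
   [[0, 0],
     [0, 0],
     [0, 0],
     [0, 0],
     [0, 0],
     [0, 0],
     [0, 0],
     [0, 0],
     [0, 0],
     [0, 0],
     [0, 1],
     [1, 0]],
   [], by norm_num, by decide +kernel⟩

lemma oc6 : ∃ (ex g : ℕ) (K γ κ R : List (List ℤ)), 0 < ex ∧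
    ocert 12 ex g (blk hyp (gr [(.D 6, 1), (.D 4, 1)])) K γ κ R = true :=
  ⟨2, 4, [[0, -2, 0, 0, 0, 0, 0, 0, 0, 0, 0, 0],
     [-2, 0, 0, 0, 0, 0, 0, 0, 0, 0, 0, 0],
     [0, 0, 2, 2, 2, 2, 1, 1, 0, 0, 0, 0],
     [0, 0, 2, 4, 4, 4, 2, 2, 0, 0, 0, 0],
     [0, 0, 2, 4, 6, 6, 3, 3, 0, 0, 0, 0],
     [0, 0, 2, 4, 6, 8, 4, 4, 0, 0, 0, 0],
     [0, 0, 1, 2, 3, 4, 3, 2, 0, 0, 0, 0],
     [0, 0, 1, 2, 3, 4, 2, 3, 0, 0, 0, 0],
     [0, 0, 0, 0, 0, 0, 0, 0, 2, 2, 1, 1],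
     [0, 0, 0, 0, 0, 0, 0, 0, 2, 4, 2, 2],
     [0, 0, 0, 0, 0, 0, 0, 0, 1, 2, 2, 1],
     [0, 0, 0, 0, 0, 0, 0, 0, 1, 2, 1, 2]],
   [[0, 0, 0, 0, 0, 0, 0, 0, 0, 0, 1, 1],
     [0, 0, 1, 0, 1, 0, 0, 1, 0, 0, 0, 0],
     [0, 0, 0, 0, 0, 0, 1, 1, 0, 0, 0, 0],
     [0, 0, 0, 0, 0, 0, 0, 0, 1, 0, 0, 1]],
   [[0, 0, 0, 0],
     [0, 0, 0, 0],
     [0, 0, 1, 0],
     [0, 0, 0, 0],
     [0, 0, 1, 0],
     [0, 0, 0, 0],
     [0, 1, 1, 0],
     [0, 1, 0, 0],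
     [1, 0, 0, 0],
     [0, 0, 0, 0],
     [0, 0, 0, 1],
     [1, 0, 0, 1]],
   [[0, 0, 0, 0, 0, 0, 0, 0, -1, 0, 1, 0],
     [0, 0, 0, 0, 0, 0, 0, 0, 0, 0, -1, 1]], by norm_num, by decide +kernel⟩

lemma oc7 : ∃ (ex g : ℕ) (K γ κ R : List (List ℤ)), 0 < ex ∧
    ocert 11 ex g (blk hyp (gr [(.E 8, 1), (.A 1, 1)])) K γ κ R = true :=
  ⟨2, 1, [[0, -2, 0, 0, 0, 0, 0, 0, 0, 0, 0],
     [-2, 0, 0, 0, 0, 0, 0, 0, 0, 0, 0],
     [0, 0, 4, 6, 8, 10, 12, 6, 8, 4, 0],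
     [0, 0, 6, 12, 16, 20, 24, 12, 16, 8, 0],
     [0, 0, 8, 16, 24, 30, 36, 18, 24, 12, 0],
     [0, 0, 10, 20, 30, 40, 48, 24, 32, 16, 0],
     [0, 0, 12, 24, 36, 48, 60, 30, 40, 20, 0],
     [0, 0, 6, 12, 18, 24, 30, 16, 20, 10, 0],
     [0, 0, 8, 16, 24, 32, 40, 20, 28, 14, 0],
     [0, 0, 4, 8, 12, 16, 20, 10, 14, 8, 0],
     [0, 0, 0, 0, 0, 0, 0, 0, 0, 0, 1]],
   [[0, 0, 0, 0, 0, 0, 0, 0, 0, 0, 1]],
   [[0],
     [0],
     [0],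
     [0],
     [0],
     [0],
     [0],
     [0],
     [0],
     [0],
     [1]],
   [], by norm_num, by decide +kernel⟩

lemma oc8 : ∃ (ex g : ℕ) (K γ κ R : List (List ℤ)), 0 < ex ∧
    ocert 11 ex g (blk hyp (gr [(.E 8, 1), (.A 1, 2)])) K γ κ R = true :=
  ⟨4, 1, [[0, -4, 0, 0, 0, 0, 0, 0, 0, 0, 0],
     [-4, 0, 0, 0, 0, 0, 0, 0, 0, 0, 0],
     [0, 0, 8, 12, 16, 20, 24, 12, 16, 8, 0],
     [0, 0, 12, 24, 32, 40, 48, 24, 32, 16, 0],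
     [0, 0, 16, 32, 48, 60, 72, 36, 48, 24, 0],
     [0, 0, 20, 40, 60, 80, 96, 48, 64, 32, 0],
     [0, 0, 24, 48, 72, 96, 120, 60, 80, 40, 0],
     [0, 0, 12, 24, 36, 48, 60, 32, 40, 20, 0],
     [0, 0, 16, 32, 48, 64, 80, 40, 56, 28, 0],
     [0, 0, 8, 16, 24, 32, 40, 20, 28, 16, 0],
     [0, 0, 0, 0, 0, 0, 0, 0, 0, 0, 1]],
   [[0, 0, 0, 0, 0, 0, 0, 0, 0, 0, 1]],
   [[0],
     [0],
     [0],
     [0],
     [0],
     [0],
     [0],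
     [0],
     [0],
     [0],
     [1]],
   [], by norm_num, by decide +kernel⟩

lemma oc9 : ∃ (ex g : ℕ) (K γ κ R : List (List ℤ)), 0 < ex ∧
    ocert 11 ex g (blk hyp (gr [(.E 8, 1), (.A 1, 3)])) K γ κ R = true :=
  ⟨6, 1, [[0, -6, 0, 0, 0, 0, 0, 0, 0, 0, 0],
     [-6, 0, 0, 0, 0, 0, 0, 0, 0, 0, 0],
     [0, 0, 12, 18, 24, 30, 36, 18, 24, 12, 0],
     [0, 0, 18, 36, 48, 60, 72, 36, 48, 24, 0],
     [0, 0, 24, 48, 72, 90, 108, 54, 72, 36, 0],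
     [0, 0, 30, 60, 90, 120, 144, 72, 96, 48, 0],
     [0, 0, 36, 72, 108, 144, 180, 90, 120, 60, 0],
     [0, 0, 18, 36, 54, 72, 90, 48, 60, 30, 0],
     [0, 0, 24, 48, 72, 96, 120, 60, 84, 42, 0],
     [0, 0, 12, 24, 36, 48, 60, 30, 42, 24, 0],
     [0, 0, 0, 0, 0, 0, 0, 0, 0, 0, 1]],
   [[0, 0, 0, 0, 0, 0, 0, 0, 0, 0, 1]],
   [[0],
     [0],
     [0],
     [0],
     [0],
     [0],
     [0],
     [0],
     [0],
     [0],
     [1]],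
   [], by norm_num, by decide +kernel⟩

lemma oc10 : ∃ (ex g : ℕ) (K γ κ R : List (List ℤ)), 0 < ex ∧
    ocert 11 ex g (blk hyp (gr [(.E 7, 1), (.A 1, 1), (.A 1, 1)])) K γ κ R = true :=
  ⟨2, 3, [[0, -2, 0, 0, 0, 0, 0, 0, 0, 0, 0],
     [-2, 0, 0, 0, 0, 0, 0, 0, 0, 0, 0],
     [0, 0, 3, 4, 5, 6, 3, 4, 2, 0, 0],
     [0, 0, 4, 8, 10, 12, 6, 8, 4, 0, 0],
     [0, 0, 5, 10, 15, 18, 9, 12, 6, 0, 0],
     [0, 0, 6, 12, 18, 24, 12, 16, 8, 0, 0],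
     [0, 0, 3, 6, 9, 12, 7, 8, 4, 0, 0],
     [0, 0, 4, 8, 12, 16, 8, 12, 6, 0, 0],
     [0, 0, 2, 4, 6, 8, 4, 6, 4, 0, 0],
     [0, 0, 0, 0, 0, 0, 0, 0, 0, 1, 0],
     [0, 0, 0, 0, 0, 0, 0, 0, 0, 0, 1]],
   [[0, 0, 1, 0, 1, 0, 1, 0, 0, 0, 0],
     [0, 0, 0, 0, 0, 0, 0, 0, 0, 0, 1],
     [0, 0, 0, 0, 0, 0, 0, 0, 0, 1, 0]],
   [[0, 0, 0],
     [0, 0, 0],
     [1, 0, 0],
     [0, 0, 0],
     [1, 0, 0],
     [0, 0, 0],
     [1, 0, 0],
     [0, 0, 0],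
     [0, 0, 0],
     [0, 0, 1],
     [0, 1, 0]],
   [[0, 0, 0, 0, 0, 0, 0, 0, 0, -1, 1]], by norm_num, by decide +kernel⟩

lemma oc11 : ∃ (ex g : ℕ) (K γ κ R : List (List ℤ)), 0 < ex ∧
    ocert 11 ex g (blk hyp (gr [(.D 5, 1), (.D 4, 1)])) K γ κ R = true :=
  ⟨4, 3, [[0, -4, 0, 0, 0, 0, 0, 0, 0, 0, 0],
     [-4, 0, 0, 0, 0, 0, 0, 0, 0, 0, 0],
     [0, 0, 4, 4, 4, 2, 2, 0, 0, 0, 0],
     [0, 0, 4, 8, 8, 4, 4, 0, 0, 0, 0],
     [0, 0, 4, 8, 12, 6, 6, 0, 0, 0, 0],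
     [0, 0, 2, 4, 6, 5, 3, 0, 0, 0, 0],
     [0, 0, 2, 4, 6, 3, 5, 0, 0, 0, 0],
     [0, 0, 0, 0, 0, 0, 0, 4, 4, 2, 2],
     [0, 0, 0, 0, 0, 0, 0, 4, 8, 4, 4],
     [0, 0, 0, 0, 0, 0, 0, 2, 4, 4, 2],
     [0, 0, 0, 0, 0, 0, 0, 2, 4, 2, 4]],
   [[0, 0, 2, 0, 2, 1, 3, 0, 0, 0, 0],
     [0, 0, 0, 0, 0, 0, 0, 2, 0, 2, 0],
     [0, 0, 0, 0, 0, 0, 0, 0, 0, 2, 2]],
   [[0, 0, 0],
     [0, 0, 0],
     [2, 0, 0],
     [0, 0, 0],
     [2, 0, 0],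
     [1, 0, 0],
     [3, 0, 0],
     [0, 0, 1],
     [0, 0, 0],
     [0, 1, 1],
     [0, 1, 0]],
   [[0, 0, 0, 0, 0, 0, 0, -1, 0, 1, 0],
     [0, 0, 0, 0, 0, 0, 0, 0, 0, -1, 1]], by norm_num, by decide +kernel⟩

lemma oc12 : ∃ (ex g : ℕ) (K γ κ R : List (List ℤ)), 0 < ex ∧
    ocert 11 ex g (blk hyp (gr [(.D 4, 1), (.D 4, 1), (.A 1, 1)])) K γ κ R = true :=
  ⟨2, 5, [[0, -2, 0, 0, 0, 0, 0, 0, 0, 0, 0],
     [-2, 0, 0, 0, 0, 0, 0, 0, 0, 0, 0],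
     [0, 0, 2, 2, 1, 1, 0, 0, 0, 0, 0],
     [0, 0, 2, 4, 2, 2, 0, 0, 0, 0, 0],
     [0, 0, 1, 2, 2, 1, 0, 0, 0, 0, 0],
     [0, 0, 1, 2, 1, 2, 0, 0, 0, 0, 0],
     [0, 0, 0, 0, 0, 0, 2, 2, 1, 1, 0],
     [0, 0, 0, 0, 0, 0, 2, 4, 2, 2, 0],
     [0, 0, 0, 0, 0, 0, 1, 2, 2, 1, 0],
     [0, 0, 0, 0, 0, 0, 1, 2, 1, 2, 0],
     [0, 0, 0, 0, 0, 0, 0, 0, 0, 0, 1]],
   [[0, 0, 0, 0, 0, 0, 1, 0, 0, 1, 0],
     [0, 0, 0, 0, 0, 0, 0, 0, 1, 1, 0],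
     [0, 0, 0, 0, 0, 0, 0, 0, 0, 0, 1],
     [0, 0, 1, 0, 1, 0, 0, 0, 0, 0, 0],
     [0, 0, 0, 0, 1, 1, 0, 0, 0, 0, 0]],
   [[0, 0, 0, 0, 0],
     [0, 0, 0, 0, 0],
     [0, 0, 0, 0, 1],
     [0, 0, 0, 0, 0],
     [0, 0, 0, 1, 1],
     [0, 0, 0, 1, 0],
     [0, 1, 0, 0, 0],
     [0, 0, 0, 0, 0],
     [1, 0, 0, 0, 0],
     [1, 1, 0, 0, 0],
     [0, 0, 1, 0, 0]],
   [[0, 0, -1, 0, 1, 0, 0, 0, 0, 0, 0],
     [0, 0, 0, 0, -1, 1, 0, 0, 0, 0, 0]], by norm_num, by decide +kernel⟩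

theorem ocs : ∀ l ∈ reps, ∃ (ex g : ℕ) (K γ κ R : List (List ℤ)), 0 < ex ∧
    ocert ((l.map fun T => T.1.rk).sum + 2) ex g (blk hyp (gr l)) K γ κ R = true := by
  intro l hl
  simp only [reps, List.mem_cons, List.not_mem_nil, or_false] at hl
  rcases hl with rfl | rfl | rfl | rfl | rfl | rfl | rfl | rfl | rfl | rfl | rfl | rfl | rfl
  · exact oc0
  · exact oc1
  · exact oc2
  · exact oc3
  · exact oc4
  · exact oc5
  · exact oc6
  · exact oc7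
  · exact oc8
  · exact oc9
  · exact oc10
  · exact oc11
  · exact oc12

/-- module Q_OVR -/
theorem q_ovr : Q_OVR := by
  intro n L L' l hl hn hG hL hL' hle hint hroot
  obtain ⟨ex, g, K, γ, κ, R, hex, h⟩ := ocs l hl
  have hn' : (l.map fun T => T.1.rk).sum + 2 = n + 1 := by omega
  rw [hn'] at h
  exact ovr_of n L L' ex g _ K γ κ R h hex hG hL hL' hle hint hroot

end Pool.Agent.CN3.H51

end
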